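import Pool.Agent.H98.MMProof

/-!
# Matroid matching fails in the generic rigidity matroids of odd dimension at least five

The definitions are in `Pool/Agent/H98/MMDefs.lean`, the proof is in `Pool/Agent/H98/MMProof.lean`.
-/

namespace Pool.Agent.Results.MP_cb6704_co.OddDimensions

open Pool.Agent.H98.MatroidMatching

/-- For every `k ≥ 2` and every `n ≥ 4k + 9` the generic rigidity matroid `R_{2k+1}(K_n)` does not
have the matroid matching property. (Generic placements exist, and the statement holds for the row
matroid of each of them.) -/
theorem result (k : ℕ) (hk : 2 ≤ k) (n : ℕ) (hn : 4 * k + 9 ≤ n) :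
    (∃ p : Fin n → Fin (2 * k + 1) → ℝ, Generic p) ∧
    ∀ p : Fin n → Fin (2 * k + 1) → ℝ, Generic p → ¬ HasMatchingProperty (rk (rigidityRow p)) := by
  constructor
  · obtain ⟨q, hq⟩ := exists_generic (Fin n × Fin (2 * k + 1))
    exact ⟨fun x c => q (x, c), hq⟩
  · intro p hp
    have hcard : Fintype.card (IV k) ≤ Fintype.card (Fin n) := by
      simp
      omega
    obtain ⟨v⟩ := Function.Embedding.nonempty_of_card_le hcard
    exact not_matching v hk p hp

end Pool.Agent.Results.MP_cb6704_co.OddDimensions
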